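import Pool.Agent.V7H51.CH.LP3
import Pool.Agent.R748.CH.TR
import Pool.Agent.R748.CH.LEMA
import Pool.Agent.R748.CH.CLOSE
import Pool.Agent.R748.CH.GAUSS
import Pool.Agent.R748.CH.POLY
import Pool.Agent.R748.CH.MID
import Pool.Agent.R748.CH.LIMIT
import Pool.Agent.R748.CH.ENT
import Pool.Agent.R748.CH.POS
import Pool.Agent.R748.CH.AILOW
import Pool.Agent.R748.CH.DECAY
import Pool.Agent.R748.CH.SHIFT
import Pool.Agent.R748.CH.FAST
import Pool.Agent.R748.CH.KERB
import Pool.Agent.R748.CH.KERL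
import Pool.Agent.R748.CH.TAIL
import Pool.Agent.R748.CH.SCALE
import Pool.Agent.R748.CH.FIN
import Pool.Agent.R748.CH.Final

/-!
# The function `G = RT ph0 0` is positive and strictly log-concave; the final theorem
-/

set_option autoImplicit false

open Complex MeasureTheory Set Filter Topology Polynomial
open Pool.Agent.H140R2.FR (Ai)

namespace Pool.Agent.V7H51.CH

open Pool.Agent.R748.CH

theorem t_G (hTR : S_TR) (hLEMA : S_LEMA) (hLIM : S_LIMIT) (hENT : S_ENT) (hPOS : S_POS)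
    (hGROW : S_GROW) (hFD : S_FDEF) (hPH : S_PH) (hFAST : S_FAST) (hTAIL : S_TAIL) : S_G := by
  obtain ⟨z₁, hz1, hz2, -⟩ := Pool.Agent.H140R2.FR.exists_first_zero
  obtain ⟨a, rfl⟩ : ∃ a : ℝ, z₁ = -a := ⟨-z₁, by ring⟩
  have ha : 0 < a := by linarith
  have hz : Ai (-(a : ℂ)) = 0 := by rw [← hz2]; push_cast; rfl
  obtain ⟨hM0, hPHa⟩ := hPH
  obtain ⟨hM1, hdec, hph, ⟨hA0, -⟩, hrel⟩ := hPHa a ha hz
  obtain ⟨hFd, hF0, -⟩ := hFD a ha hz
  obtain ⟨Q, hQ1, hQ2⟩ := limit_hyp hGROW a ha hz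
  obtain ⟨hnn, hlc, hmid⟩ := hLIM (Fa a) hFd.continuous hF0 ⟨Q, hQ1, hQ2⟩ hM1
  set c : ℝ := (Ai 0).re with hc
  set G : ℕ → ℝ → ℝ := fun j => RT ph0 j with hGdef
  have hG : ∀ j x, HasDerivAt (G j) (G (j + 1) x) x := fun j => (hTR ph0 hM0 j).1
  set m0 : ℕ → ℝ → ℝ := fun j => RT (ph1 a) j with hm0def
  have hm : ∀ j x, HasDerivAt (m0 j) (m0 (j + 1) x) x := fun j => (hTR (ph1 a) hM1 j).1
  have hrel' : ∀ j x, m0 j x = c * (G j x + G (j + 1) x / a) := hrel
  obtain ⟨X0, hX0⟩ := hTAIL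
  have hGb : ∀ j, ∃ C : ℝ, ∀ x, |G j x| ≤ C := fun j => (hTR ph0 hM0 j).2.2.1
  have hexpd : ∀ k x : ℝ, HasDerivAt (fun x : ℝ => Real.exp (k * x)) (k * Real.exp (k * x)) x := by
    intro k x
    have := ((hasDerivAt_id x).const_mul k).exp
    simpa [mul_comm] using this
  have hlim0 : ∀ j : ℕ, ∀ k : ℝ, 0 < k → Tendsto (fun x => Real.exp (k * x) * G j x) atBot (𝓝 0) := by
    intro j k hk
    obtain ⟨C, hC⟩ := hGb j
    have h1 : Tendsto (fun x : ℝ => Real.exp (k * x)) atBot (𝓝 0) :=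
      Real.tendsto_exp_atBot.comp (tendsto_id.const_mul_atBot hk)
    have h2 : Tendsto (fun x : ℝ => Real.exp (k * x) * C) atBot (𝓝 0) := by
      have := h1.mul_const C
      rwa [zero_mul] at this
    refine squeeze_zero_norm (fun x => ?_) h2
    rw [norm_mul, Real.norm_eq_abs, Real.norm_eq_abs, abs_of_pos (Real.exp_pos _)]
    exact mul_le_mul_of_nonneg_left (hC x) (Real.exp_pos _).le
  -- `M x = exp (a x) G x`
  have hMd : ∀ x, HasDerivAt (fun x => Real.exp (a * x) * G 0 x)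
      (a / c * Real.exp (a * x) * m0 0 x) x := by
    intro x
    refine ((hexpd a x).mul (hG 0 x)).congr_deriv ?_
    rw [hrel' 0 x]
    have : c ≠ 0 := hA0.ne'
    field_simp
  -- positivity of `m0 0`
  have hm0pos : ∀ x, 0 < m0 0 x := by
    apply hPOS (m0 0) (hENT (ph1 a) hM1.cont hdec) hnn hmid
    by_contra hcon
    push Not at hcon
    have h1 : ∀ x, HasDerivAt (fun x => Real.exp (a * x) * G 0 x) 0 x := by
      intro x
      refine (hMd x).congr_deriv ?_
      rw [show m0 0 x = 0 from hcon x, mul_zero]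
    have h2 : ∀ x y, Real.exp (a * x) * G 0 x = Real.exp (a * y) * G 0 y :=
      is_const_of_deriv_eq_zero (fun x => (h1 x).differentiableAt) (fun x => (h1 x).deriv)
    have h3 := hlim0 0 a ha
    have h4 : (fun x => Real.exp (a * x) * G 0 x) = fun _ => Real.exp (a * (-X0)) * G 0 (-X0) := by
      funext x; exact h2 x _
    rw [h4] at h3
    have h5 := tendsto_nhds_unique h3 tendsto_const_nhds
    have h6 := (hX0 X0 le_rfl).2
    rcases mul_eq_zero.1 h5.symm with h7 | h7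
    · exact (Real.exp_pos _).ne' h7
    · exact h6 h7
  -- the derivatives of `m x = (a/c) exp (a x) m0 0 x`
  have hac : 0 < a / c := by positivity
  have hd1 : ∀ x, HasDerivAt (fun x => a / c * Real.exp (a * x) * m0 0 x)
      (a / c * Real.exp (a * x) * (a * m0 0 x + m0 1 x)) x := by
    intro x
    refine (((hexpd a x).const_mul (a / c)).mul (hm 0 x)).congr_deriv ?_
    ring
  have hd2 : ∀ x, HasDerivAt (fun x => a / c * Real.exp (a * x) * (a * m0 0 x + m0 1 x))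
      (a / c * Real.exp (a * x) * (a ^ 2 * m0 0 x + 2 * a * m0 1 x + m0 2 x)) x := by
    intro x
    refine (((hexpd a x).const_mul (a / c)).mul (((hm 0 x).const_mul a).add (hm 1 x))).congr_deriv ?_
    simp only [Pi.add_apply]
    ring
  have key := hLEMA (fun x => Real.exp (a * x) * G 0 x) (fun x => a / c * Real.exp (a * x) * m0 0 x)
    (fun x => a / c * Real.exp (a * x) * (a * m0 0 x + m0 1 x))
    (fun x => a / c * Real.exp (a * x) * (a ^ 2 * m0 0 x + 2 * a * m0 1 x + m0 2 x))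
    hMd hd1 hd2 (fun x => by have := hm0pos x; positivity) (fun x => by
      have h1 := hlc x
      have h2 : m0 0 x * m0 2 x ≤ m0 1 x ^ 2 := h1
      have h3 : 0 < (a / c * Real.exp (a * x)) ^ 2 := by positivity
      have h4 := mul_le_mul_of_nonneg_left h2 h3.le
      nlinarith) (hlim0 0 a ha)
  obtain ⟨k1, -, k3⟩ := key
  have k4 := k3 (by
    intro l hl
    -- `exp (-l x) m x → 0` at `-∞`
    obtain ⟨C0, hC0⟩ := hFAST l 0 hl.le
    obtain ⟨C1, hC1⟩ := hFAST l 1 hl.le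
    have h1 : Tendsto (fun x : ℝ => Real.exp (a * x)) atBot (𝓝 0) :=
      Real.tendsto_exp_atBot.comp (tendsto_id.const_mul_atBot ha)
    have h2 : Tendsto (fun x : ℝ => Real.exp (a * x) * (a / c * (c * (C0 + C1 / a)))) atBot (𝓝 0) := by
      have := h1.mul_const (a / c * (c * (C0 + C1 / a)))
      rwa [zero_mul] at this
    refine squeeze_zero_norm (fun x => ?_) h2
    have e : Real.exp (-(l * x)) * (a / c * Real.exp (a * x) * m0 0 x) =
        Real.exp (a * x) * (a / c * (c * (Real.exp (-(l * x)) * G 0 x +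
          Real.exp (-(l * x)) * G 1 x / a))) := by
      rw [hrel' 0 x]; ring
    rw [e, norm_mul, Real.norm_eq_abs, abs_of_pos (Real.exp_pos _)]
    apply mul_le_mul_of_nonneg_left _ (Real.exp_pos _).le
    rw [norm_mul, norm_mul, Real.norm_eq_abs, Real.norm_eq_abs, abs_of_pos hac, abs_of_pos hA0]
    apply mul_le_mul_of_nonneg_left _ hac.le
    apply mul_le_mul_of_nonneg_left _ hA0.le
    have b0 : ∀ (j : ℕ) (C : ℝ), |G j x| ≤ C * Real.exp (l * x) →
        |Real.exp (-(l * x)) * G j x| ≤ C := by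
      intro j C h
      rw [abs_mul, abs_of_pos (Real.exp_pos _)]
      calc Real.exp (-(l * x)) * |G j x| ≤ Real.exp (-(l * x)) * (C * Real.exp (l * x)) :=
            mul_le_mul_of_nonneg_left h (Real.exp_pos _).le
        _ = C := by
            rw [Real.exp_neg]; field_simp
    refine (norm_add_le _ _).trans (add_le_add (b0 0 C0 (hC0 x)) ?_)
    rw [norm_div, Real.norm_eq_abs, Real.norm_eq_abs, abs_of_pos ha]
    exact div_le_div_of_nonneg_right (b0 1 C1 (hC1 x)) ha.le)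
  refine ⟨fun x => ?_, fun x => ?_⟩
  · have h1 := k1 x
    exact (mul_pos_iff_of_pos_left (Real.exp_pos _)).1 h1
  · have h1 := k4 x
    have e0 : a / c * Real.exp (a * x) * m0 0 x = Real.exp (a * x) * (a * G 0 x + G 1 x) := by
      rw [hrel' 0 x]
      have : c ≠ 0 := hA0.ne'
      field_simp
    have e1 : a / c * Real.exp (a * x) * (a * m0 0 x + m0 1 x) =
        Real.exp (a * x) * (a ^ 2 * G 0 x + 2 * a * G 1 x + G 2 x) := by
      rw [hrel' 0 x, hrel' 1 x]
      have : c ≠ 0 := hA0.ne'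
      field_simp
      ring
    rw [e0, e1] at h1
    have h2 : 0 < Real.exp (a * x) ^ 2 := by positivity
    have h3 : Real.exp (a * x) ^ 2 * (G 0 x * G 2 x) < Real.exp (a * x) ^ 2 * G 1 x ^ 2 := by
      nlinarith
    exact lt_of_mul_lt_mul_left h3 h2.le

/-- All pieces together. -/
theorem all : S_G ∧ ∃ c : ℝ, 0 < c ∧ (∀ t, 0 < fZ t) ∧ ContDiff ℝ 2 fZ ∧
      (∀ t, c ≤ -(iteratedDeriv 2 (fun s => Real.log (fZ s)) t)) ∧
      ConvexOn ℝ Set.univ (fun t => -Real.log (fZ t) - c / 2 * t ^ 2) := by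
  have hTR := t_TR
  have hL := t_LEMA
  have hPOLY := t_POLY (t_CLOSE hTR hL)
  have hLIM := t_LIMIT hPOLY (t_GAUSS hTR) (t_MID hTR)
  have hFD := t_FDEF t_GROW
  have hD := t_DECAY t_AILOW
  have hPH := t_PH hD hFD hTR
  have hSH := t_SHIFT hD
  have hFAST := t_FAST hSH hD
  have hTAIL := t_TAIL hSH (t_KERB t_AILOW) t_KERL hTR hPH
  have hG := t_G hTR hL hLIM t_ENT t_POS t_GROW hFD hPH hFAST hTAIL
  exact ⟨hG, t_FINAL hTR hPH hTAIL hG t_SCALE t_FIN⟩

theorem strong : ∃ c : ℝ, 0 < c ∧ (∀ t, 0 < fZ t) ∧ ContDiff ℝ 2 fZ ∧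
      (∀ t, c ≤ -(iteratedDeriv 2 (fun s => Real.log (fZ s)) t)) ∧
      ConvexOn ℝ Set.univ (fun t => -Real.log (fZ t) - c / 2 * t ^ 2) := all.2

/-- Groeneboom's function is real and positive. -/
theorem gG_real_pos (t : ℝ) : (gG t).im = 0 ∧ 0 < (gG t).re := by
  have hTR := t_TR
  have hPH := t_PH (t_DECAY t_AILOW) (t_FDEF t_GROW) hTR
  have h1 : gG t = (((2 : ℝ) ^ ((2 : ℝ) / 3) / (2 * Real.pi) *
      RT ph0 0 (-((2 : ℝ) ^ ((1 : ℝ) / 3) * t)) : ℝ) : ℂ) := by
    rw [t_SCALE t, (hTR ph0 hPH.1 0).2.1, ← Complex.ofReal_mul]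
  rw [h1, Complex.ofReal_im, Complex.ofReal_re]
  refine ⟨rfl, ?_⟩
  have h2 := all.1.1 (-((2 : ℝ) ^ ((1 : ℝ) / 3) * t))
  positivity

end Pool.Agent.V7H51.CH
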