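import Pool.Agent.R748.CH.GROW
import Pool.Agent.R748.CH.FDEF
import Pool.Agent.R748.CH.PH
import Pool.Agent.H1R3.Z.Had

/-!
# Approximation of `Ai z / (Ai 0 * (1 + z/a))` by real rooted polynomials
-/

set_option autoImplicit false

open Complex MeasureTheory Set Filter Topology Polynomial Metric
open Pool.Agent.H140R2.FR (Ai)

namespace Pool.Agent.V7H51.CH

open Pool.Agent.R748.CH

/-- difference of `m`-th powers -/
theorem pow_sub (x y : ℂ) (B : ℝ) (hx : ‖x‖ ≤ B) (hy : ‖y‖ ≤ B) (hB : 1 ≤ B) (m : ℕ) :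
    ‖x ^ m - y ^ m‖ ≤ m * ‖x - y‖ * B ^ m := by
  have hB0 : 0 ≤ B := by linarith
  induction m with
  | zero => simp
  | succ m ih =>
    have e : x ^ (m + 1) - y ^ (m + 1) = x ^ m * (x - y) + (x ^ m - y ^ m) * y := by ring
    rw [e]
    have h1 : ‖x ^ m‖ ≤ B ^ m := by
      rw [norm_pow]; exact pow_le_pow_left₀ (norm_nonneg _) hx m
    calc ‖x ^ m * (x - y) + (x ^ m - y ^ m) * y‖
        ≤ ‖x ^ m * (x - y)‖ + ‖(x ^ m - y ^ m) * y‖ := norm_add_le _ _
      _ = ‖x ^ m‖ * ‖x - y‖ + ‖x ^ m - y ^ m‖ * ‖y‖ := by rw [norm_mul, norm_mul]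
      _ ≤ B ^ m * ‖x - y‖ + (m * ‖x - y‖ * B ^ m) * B := by gcongr
      _ ≤ B ^ (m + 1) * ‖x - y‖ + (m * ‖x - y‖ * B ^ m) * B := by
          have : B ^ m ≤ B ^ (m + 1) := pow_le_pow_right₀ hB (by omega)
          gcongr
      _ = ((m + 1 : ℕ) : ℝ) * ‖x - y‖ * B ^ (m + 1) := by push_cast; ring

/-- `(1 + w/m)^m` is close to `exp w` -/
theorem exp_pow_bound (w : ℂ) (m : ℕ) (hm : 0 < m) (h : ‖w‖ ≤ m) :
    ‖(1 + w / m) ^ m - cexp w‖ ≤ ‖w‖ ^ 2 / m * Real.exp ‖w‖ := by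
  have hm' : (0 : ℝ) < m := by exact_mod_cast hm
  have hmc : (m : ℂ) ≠ 0 := by exact_mod_cast hm.ne'
  have e : cexp w = (cexp (w / m)) ^ m := by
    rw [← Complex.exp_nat_mul]; congr 1; field_simp
  have hn : ‖w / (m : ℂ)‖ = ‖w‖ / m := by rw [norm_div, Complex.norm_natCast]
  have hn1 : ‖w / (m : ℂ)‖ ≤ 1 := by rw [hn, div_le_one hm']; exact h
  have h1 : ‖(1 + w / m : ℂ)‖ ≤ Real.exp (‖w‖ / m) := by
    calc ‖(1 + w / m : ℂ)‖ ≤ ‖(1 : ℂ)‖ + ‖w / (m : ℂ)‖ := norm_add_le _ _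
      _ = ‖w‖ / m + 1 := by rw [norm_one, hn]; ring
      _ ≤ Real.exp (‖w‖ / m) := Real.add_one_le_exp _
  have h2 : ‖cexp (w / m)‖ ≤ Real.exp (‖w‖ / m) := by
    rw [Complex.norm_exp]
    apply Real.exp_le_exp.2
    rw [← hn]
    exact (Complex.re_le_norm _)
  have h3 : ‖(1 + w / m : ℂ) - cexp (w / m)‖ ≤ (‖w‖ / m) ^ 2 := by
    have := Complex.norm_exp_sub_one_sub_id_le hn1
    rw [hn] at this
    rw [norm_sub_rev]
    have e2 : cexp (w / m) - (1 + w / m) = cexp (w / m) - 1 - w / m := by ring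
    rw [e2]; exact this
  have h4 := pow_sub (1 + w / m) (cexp (w / m)) (Real.exp (‖w‖ / m)) h1 h2
    (Real.one_le_exp (by positivity)) m
  rw [← e] at h4
  have h5 : Real.exp (‖w‖ / m) ^ m = Real.exp ‖w‖ := by
    rw [← Real.exp_nat_mul]; congr 1; field_simp
  rw [h5] at h4
  refine h4.trans ?_
  calc (m : ℝ) * ‖(1 + w / m : ℂ) - cexp (w / m)‖ * Real.exp ‖w‖
      ≤ (m : ℝ) * (‖w‖ / m) ^ 2 * Real.exp ‖w‖ := by gcongr
    _ = ‖w‖ ^ 2 / m * Real.exp ‖w‖ := by field_simp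

/-- logarithm with Borel-Caratheodory bounds (adapted from `H1R3.Z.log_bounds`) -/
theorem log_approx {h : ℂ → ℂ} {R M : ℝ} (hR : 0 < R) (hM : 0 < M) (hd : Differentiable ℂ h)
    (hne : ∀ z, ‖z‖ < R → h z ≠ 0)
    (hb : ∀ z, ‖z‖ < R → ‖h z‖ ≤ ‖h 0‖ * Real.exp M) :
    ∃ φ : ℂ → ℂ, (∀ z, ‖z‖ < R → h z = h 0 * cexp (φ z)) ∧
      (∀ z, ‖z‖ < R / 2 → ‖φ z - deriv h 0 / h 0 * z‖ ≤ 16 * M * (‖z‖ / R) ^ 2) := by
  have h0 : h 0 ≠ 0 := hne 0 (by simpa using hR)
  have hq : DifferentiableOn ℂ (fun z => deriv h z / h z) (ball 0 R) := by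
    intro z hz
    rw [mem_ball_zero_iff] at hz
    exact ((hd.deriv z).div (hd z) (hne z hz)).differentiableWithinAt
  obtain ⟨φ, hφ0, hφ⟩ := hq.isExactOn_ball.with_val_at 0 0
  have hexp : ∀ z ∈ ball (0:ℂ) R, h z = h 0 * cexp (φ z) := by
    have hk : ∀ z ∈ ball (0:ℂ) R, HasDerivAt (fun z => h z * cexp (-φ z)) 0 z := by
      intro z hz
      have hz' : ‖z‖ < R := by rwa [mem_ball_zero_iff] at hz
      have := (hd z).hasDerivAt.mul ((hφ z hz).neg.cexp)
      refine this.congr_deriv ?_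
      have := hne z hz'
      field_simp
      ring
    intro z hz
    have hc : (fun z => h z * cexp (-φ z)) z = (fun z => h z * cexp (-φ z)) 0 := by
      apply (convex_ball (0:ℂ) R).is_const_of_fderivWithin_eq_zero (𝕜 := ℂ)
        (fun w hw => (hk w hw).differentiableAt.differentiableWithinAt) _ hz
        (mem_ball_self hR)
      intro w hw
      rw [fderivWithin_of_isOpen isOpen_ball hw]
      have := (hk w hw).hasFDerivAt.fderiv
      rw [this]
      ext; simp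
    simp only [hφ0, neg_zero, Complex.exp_zero, mul_one] at hc
    rw [← hc, mul_assoc, ← Complex.exp_add]; simp
  have hmaps : MapsTo φ (ball 0 R) {z | z.re ≤ M} := by
    intro z hz
    show (φ z).re ≤ M
    have hz' : ‖z‖ < R := by rwa [mem_ball_zero_iff] at hz
    have h1 := hb z hz'
    rw [hexp z hz, norm_mul, Complex.norm_exp] at h1
    have h2 := le_of_mul_le_mul_left h1 (norm_pos_iff.2 h0)
    exact Real.exp_le_exp.1 h2
  have hφd : DifferentiableOn ℂ φ (ball 0 R) := fun z hz =>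
    (hφ z hz).differentiableAt.differentiableWithinAt
  have hbc : ∀ z, ‖z‖ < R / 2 → ‖φ z‖ ≤ 2 * M := by
    intro z hz
    have hzR : z ∈ ball (0:ℂ) R := by rw [mem_ball_zero_iff]; linarith
    have h1 := borelCaratheodory_zero hM hφd hmaps hR hzR hφ0
    refine h1.trans ?_
    rw [div_le_iff₀ (by linarith)]
    nlinarith [norm_nonneg z]
  refine ⟨φ, fun z hz => hexp z (by rwa [mem_ball_zero_iff]), ?_⟩
  intro z hz
  have hzR : z ∈ ball (0:ℂ) R := by rw [mem_ball_zero_iff]; linarith [norm_nonneg z]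
  set t := deriv h 0 / h 0 with ht
  have hφ' : HasDerivAt φ t 0 := hφ 0 (mem_ball_self hR)
  have hR2 : 0 < R / 2 := by linarith
  have hmapsc : MapsTo φ (ball 0 (R / 2)) (closedBall (φ 0) (2 * M)) := by
    intro w hw
    rw [mem_ball_zero_iff] at hw
    rw [hφ0, mem_closedBall_zero_iff]
    exact hbc w hw
  have htb : ‖t‖ ≤ 2 * M / (R / 2) := by
    have h9 := Complex.norm_deriv_le_div_of_mapsTo_ball
      (hφd.mono (ball_subset_ball (by linarith))) hmapsc hR2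
    rwa [hφ'.deriv] at h9
  set f₂ : ℂ → ℂ := fun w => φ w - t * w with hf₂
  have hf20 : f₂ 0 = 0 := by simp [hf₂, hφ0]
  have hmaps2 : MapsTo f₂ (ball 0 (R / 2)) (closedBall (f₂ 0) (4 * M)) := by
    intro w hw
    rw [mem_ball_zero_iff] at hw
    rw [hf20, mem_closedBall_zero_iff]
    calc ‖φ w - t * w‖ ≤ ‖φ w‖ + ‖t * w‖ := norm_sub_le _ _
      _ ≤ 2 * M + 2 * M / (R / 2) * (R / 2) := by
          rw [norm_mul]
          apply add_le_add (hbc w hw)
          exact mul_le_mul htb hw.le (norm_nonneg _) (by positivity)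
      _ = 4 * M := by field_simp; ring
  have hlo : (f₂ · - f₂ 0) =o[𝓝 0] (fun w ↦ ‖w - 0‖ ^ 1) := by
    have h1 := hφ'.isLittleO.norm_right
    have e1 : (fun x => φ x - φ 0 - (x - 0) • t) = (f₂ · - f₂ 0) := by
      funext x
      simp only [hf₂, smul_eq_mul, sub_zero, mul_zero]
      ring
    rw [e1] at h1
    simpa using h1
  have h4 := Complex.dist_le_mul_div_pow_of_mapsTo_ball_of_isLittleO (n := 1) (f := f₂)
    ((hφd.mono (ball_subset_ball (by linarith))).sub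
      ((differentiable_const t).mul differentiable_id).differentiableOn) hmaps2 hlo
    (mem_ball_zero_iff.2 hz)
  rw [hf20, dist_zero_right, dist_zero_right] at h4
  refine h4.trans (le_of_eq ?_)
  have h6 : ‖z‖ / (R / 2) = 2 * (‖z‖ / R) := by field_simp
  rw [h6]
  ring

end Pool.Agent.V7H51.CH
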