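import Pool.Agent.V7H51.CH.LP

/-!
# Approximation of `Ai z / (Ai 0 * (1 + z/a))` by real rooted polynomials, second part
-/

set_option autoImplicit false

open Complex MeasureTheory Set Filter Topology Polynomial Metric
open Pool.Agent.H140R2.FR (Ai Ai_ne_zero Ai_differentiable Ai_real)

namespace Pool.Agent.V7H51.CH

open Pool.Agent.R748.CH

/-- The zeros of `Ai` are real, negative and simple. -/
theorem Ai_zero {z : ℂ} (h : Ai z = 0) : z.im = 0 ∧ z.re < 0 ∧ deriv Ai z ≠ 0 := by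
  have h1 : z.im = 0 := by
    by_contra h1
    exact Ai_ne_zero z (Or.inl h1) h
  have h2 : z.re < 0 := by
    by_contra h2
    exact Ai_ne_zero z (Or.inr (not_lt.1 h2)) h
  refine ⟨h1, h2, fun h3 => ?_⟩
  have e : ((z.re : ℝ) : ℂ) = z := by
    apply Complex.ext <;> simp [h1]
  apply Pool.Agent.H140R2.FR.T03.deriv_ne z.re h2.le
  · rw [e, h]; simp
  · rw [e, h3]; simp

/-- factorisation on a disc (adapted from `H1R3.Z.had_main`) -/
theorem had_main {G : ℂ → ℂ} (hd : Differentiable ℂ G) (hs : ∀ z, G z = 0 → deriv G z ≠ 0)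
    (h0 : G 0 ≠ 0) (R M : ℝ) (hR : 0 < R) (hM : ∀ z, ‖z‖ ≤ 4 * R → ‖G z‖ ≤ M) :
    ∃ (S : Finset ℂ) (h : ℂ → ℂ), (∀ z, z ∈ S ↔ (G z = 0 ∧ ‖z‖ < R)) ∧ Differentiable ℂ h ∧
      (∀ z, G z = (∏ a ∈ S, (1 - z / a)) * h z) ∧ (∀ z, ‖z‖ < R → h z ≠ 0) ∧
      (∀ z, ‖z‖ ≤ 4 * R → ‖h z‖ ≤ M) ∧ h 0 = G 0 := by
  classical
  set S : Finset ℂ := (H1R3.Z.zeros_finite hd hs R).toFinset with hS
  have hmem : ∀ z, z ∈ S ↔ (G z = 0 ∧ ‖z‖ < R) := by
    intro z; rw [hS, Set.Finite.mem_toFinset]; rfl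
  have hS0 : (0:ℂ) ∉ S := fun h => h0 ((hmem 0).1 h).1
  obtain ⟨h, hhd, hh⟩ := H1R3.Z.div_factors S hd (fun a ha => ((hmem a).1 ha).1) hS0
  have hSR : ∀ a ∈ S, a ≠ 0 ∧ ‖a‖ < R := fun a ha =>
    ⟨fun h => hS0 (h ▸ ha), ((hmem a).1 ha).2⟩
  refine ⟨S, h, hmem, hhd, hh, ?_, ?_, ?_⟩
  · intro w hw hw0
    have hGw : G w = 0 := by rw [hh w, hw0, mul_zero]
    have hwS : w ∈ S := (hmem w).2 ⟨hGw, hw⟩
    apply hs w hGw
    have hw0' : w ≠ 0 := (hSR w hwS).1
    have e : G = fun z => (1 - z / w) * ((∏ a ∈ S.erase w, (1 - z / a)) * h z) := by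
      funext z
      rw [hh z, ← Finset.mul_prod_erase S _ hwS]; ring
    have hk : DifferentiableAt ℂ (fun z => (∏ a ∈ S.erase w, (1 - z / a)) * h z) w := by
      apply DifferentiableAt.mul _ (hhd w)
      apply DifferentiableAt.fun_finsetProd
      intro a _
      exact (differentiableAt_const _).sub (differentiableAt_id.div_const a)
    have h1 : HasDerivAt (fun z : ℂ => (1 - z / w)) (-(1 / w)) w := by
      have := ((hasDerivAt_id w).div_const w).const_sub 1
      simpa using this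
    have h2 := h1.mul hk.hasDerivAt
    have h3 : HasDerivAt G (-(1 / w) * ((∏ a ∈ S.erase w, (1 - w / a)) * h w) +
        (1 - w / w) * deriv (fun z => (∏ a ∈ S.erase w, (1 - z / a)) * h z) w) w := by
      rw [e]; exact h2
    rw [h3.deriv, hw0, div_self hw0']
    simp
  · intro z hz
    have h1 := H1R3.Z.quot_bound S R M hR hSR hhd hh hM z hz
    have h2 : (1:ℝ) ≤ 3 ^ S.card := one_le_pow₀ (by norm_num)
    nlinarith [norm_nonneg (h z)]
  · have := hh 0
    simp at this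
    exact this.symm

theorem prod_deriv0 (S : Finset ℂ) :
    HasDerivAt (fun z : ℂ => ∏ a ∈ S, (1 - z / a)) (-∑ a ∈ S, 1 / a) 0 := by
  classical
  induction S using Finset.induction_on with
  | empty => simpa using hasDerivAt_const (0:ℂ) (1:ℂ)
  | insert a S ha ih =>
    have h1 : HasDerivAt (fun z : ℂ => (1 - z / a)) (-(1 / a)) 0 := by
      have := ((hasDerivAt_id (0:ℂ)).div_const a).const_sub 1
      simpa using this
    have h2 := h1.mul ih
    have e : (fun z : ℂ => ∏ b ∈ insert a S, (1 - z / b)) =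
        (fun z : ℂ => (1 - z / a)) * fun z => ∏ b ∈ S, (1 - z / b) := by
      funext z; rw [Finset.prod_insert ha]; rfl
    rw [e]
    refine h2.congr_deriv ?_
    rw [Finset.sum_insert ha]
    simp
    ring

theorem deriv_Ai_zero_im : (deriv Ai 0).im = 0 := by
  have h1 := (Ai_differentiable 0).hasDerivAt
  have h2 : HasDerivAt (fun x : ℝ => Ai (x : ℂ)) (deriv Ai 0) 0 := by
    have := HasDerivAt.comp_ofReal (e := Ai) (z := 0) (e' := deriv Ai 0) (by simpa using h1)
    exact this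
  have h3 : HasDerivAt (fun x : ℝ => (Ai (x : ℂ)).im) (deriv Ai 0).im 0 := by
    have := (Complex.imCLM.hasFDerivAt (x := Ai ((0 : ℝ) : ℂ))).comp_hasDerivAt (0 : ℝ) h2
    exact this
  have h4 : (fun x : ℝ => (Ai (x : ℂ)).im) = fun _ => 0 := funext Ai_real
  rw [h4] at h3
  exact h3.unique (hasDerivAt_const _ _) |>.trans rfl

/-- factorisation of `Fa a` -/
theorem Fa_fact (a : ℝ) (ha : 0 < a) (hz : Ai (-(a : ℂ)) = 0) (R M : ℝ) (hR : a < R)
    (hM : 0 < M) (hb : ∀ z, ‖z‖ ≤ 4 * R → ‖Ai z‖ ≤ ‖Ai 0‖ * Real.exp M) :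
    ∃ (S : Finset ℂ) (t : ℝ) (φ : ℂ → ℂ), (∀ b ∈ S, b ≠ 0 ∧ b.im = 0) ∧
      (∀ z, ‖z‖ < R → Fa a z = (∏ b ∈ S, (1 - z / b)) * cexp (φ z)) ∧
      ∀ z, ‖z‖ < R / 2 → ‖φ z - t * z‖ ≤ 16 * M * (‖z‖ / R) ^ 2 := by
  classical
  have hR0 : 0 < R := ha.trans hR
  have hA0 : Ai 0 ≠ 0 := Ai_zero_ne
  obtain ⟨S, h, hmem, hd, hh, hne, hbd, hh0⟩ := had_main Ai_differentiable
    (fun z hz => (Ai_zero hz).2.2) hA0 R _ hR0 hb
  obtain ⟨φ, hφ, hφ2⟩ := log_approx hR0 hM hd hne (fun z hz => by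
    rw [hh0]; exact hbd z (by linarith))
  have haS : -(a : ℂ) ∈ S := by
    rw [hmem]; refine ⟨hz, ?_⟩
    rw [norm_neg, Complex.norm_real, Real.norm_eq_abs, abs_of_pos ha]; exact hR
  have hac : (a : ℂ) ≠ 0 := by exact_mod_cast ha.ne'
  -- the number `t` is real
  have ht : (deriv h 0 / h 0).im = 0 := by
    have hder : deriv Ai 0 = -(∑ a ∈ S, 1 / a) * h 0 + deriv h 0 := by
      have h1 := (prod_deriv0 S).mul (hd 0).hasDerivAt
      have e : Ai = (fun z : ℂ => ∏ a ∈ S, (1 - z / a)) * h := by funext z; exact hh z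
      rw [← e] at h1
      rw [h1.deriv]
      simp
    have hh0' : h 0 ≠ 0 := by rw [hh0]; exact hA0
    have e2 : deriv h 0 / h 0 = deriv Ai 0 / Ai 0 + ∑ a ∈ S, 1 / a := by
      rw [hder, ← hh0]
      field_simp
      ring
    rw [e2, Complex.add_im, Complex.im_sum]
    have h3 : ∀ b ∈ S, (1 / b).im = 0 := by
      intro b hb
      have h4 := (Ai_zero ((hmem b).1 hb).1).1
      rw [one_div, Complex.inv_im, h4]; simp
    rw [Finset.sum_eq_zero h3, add_zero]
    have h5 : (Ai 0).im = 0 := by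
      have := Ai_real 0
      rwa [Complex.ofReal_zero] at this
    rw [Complex.div_im, h5, deriv_Ai_zero_im]; simp
  refine ⟨S.erase (-(a : ℂ)), (deriv h 0 / h 0).re, φ, ?_, ?_, ?_⟩
  · intro b hb
    have hb2 := (hmem b).1 (Finset.mem_of_mem_erase hb)
    have h4 := Ai_zero hb2.1
    refine ⟨?_, h4.1⟩
    rintro rfl
    simpa using h4.2.1
  · -- the factorisation, first off the point `-a`
    have hfac : ∀ z, Fa a z = (∏ b ∈ S.erase (-(a : ℂ)), (1 - z / b)) * (h z / h 0) := by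
      have hc1 : Continuous (Fa a) := (Fa_diff a).continuous
      have hc2 : Continuous (fun z => (∏ b ∈ S.erase (-(a : ℂ)), (1 - z / b)) * (h z / h 0)) := by
        apply Continuous.mul
        · apply continuous_finset_prod
          intro b _
          exact continuous_const.sub (continuous_id.div_const b)
        · exact hd.continuous.div_const _
      have hde : Dense ({-(a : ℂ)}ᶜ : Set ℂ) := dense_compl_singleton _
      have he : Set.EqOn (Fa a)
          (fun z => (∏ b ∈ S.erase (-(a : ℂ)), (1 - z / b)) * (h z / h 0))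
          ({-(a : ℂ)}ᶜ : Set ℂ) := by
        intro z hz1
        have hz2 : 1 + z / (a : ℂ) ≠ 0 := by
          intro h
          apply hz1
          field_simp at h
          show z = -(a : ℂ)
          linear_combination h
        have h1 := Fa_mul a ha hz z
        rw [hh z, ← Finset.mul_prod_erase S _ haS, ← hh0] at h1
        have e : (1 : ℂ) - z / -(a : ℂ) = 1 + z / a := by rw [div_neg, sub_neg_eq_add]
        rw [e] at h1
        apply mul_left_cancel₀ hz2
        rw [h1]; ring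
      have := Continuous.ext_on hde hc1 hc2 he
      exact fun z => congrFun this z
    intro z hzR
    have hh0' : h 0 ≠ 0 := by rw [hh0]; exact hA0
    rw [hfac z, hφ z hzR, mul_div_cancel_left₀ _ hh0']
  · intro z hz1
    have h1 := hφ2 z hz1
    have e : ((deriv h 0 / h 0).re : ℂ) = deriv h 0 / h 0 := by
      apply Complex.ext
      · simp
      · rw [ht]; simp
    rw [e]; exact h1

end Pool.Agent.V7H51.CH
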