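import Pool.Agent.V7H51.CH.LP2

/-!
# Approximation of `Ai z / (Ai 0 * (1 + z/a))` by real rooted polynomials, third part
-/

set_option autoImplicit false

open Complex MeasureTheory Set Filter Topology Polynomial Metric
open Pool.Agent.H140R2.FR (Ai Ai_ne_zero Ai_differentiable Ai_real)

namespace Pool.Agent.V7H51.CH

open Pool.Agent.R748.CH

/-- growth on the disc of radius `4 x ^ 2` -/
theorem growth (hG : S_GROW) : ∃ C : ℝ, 0 < C ∧ ∀ x : ℝ, 1 ≤ x → ∀ z : ℂ, ‖z‖ ≤ 4 * x ^ 2 →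
    ‖Ai z‖ ≤ ‖Ai 0‖ * Real.exp (C * x ^ 3) := by
  obtain ⟨K, hK, h⟩ := hG
  have hA0 : 0 < ‖Ai 0‖ := norm_pos_iff.2 Ai_zero_ne
  refine ⟨12 * K + |Real.log ‖Ai 0‖| + 1, by positivity, fun x hx z hz => ?_⟩
  have hx0 : 0 < x := by linarith
  have h1 : (1 + ‖z‖) ^ (3 / 2 : ℝ) ≤ 12 * x ^ 3 := by
    have h2 : 1 + ‖z‖ ≤ (9 / 4 * x) ^ 2 := by nlinarith
    calc (1 + ‖z‖) ^ (3 / 2 : ℝ) ≤ ((9 / 4 * x) ^ 2) ^ (3 / 2 : ℝ) :=
          Real.rpow_le_rpow (by positivity) h2 (by norm_num)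
      _ = (9 / 4 * x) ^ 3 := by
          rw [← Real.rpow_natCast, ← Real.rpow_mul (by positivity), ← Real.rpow_natCast]
          norm_num
      _ ≤ 12 * x ^ 3 := by
          have : (0 : ℝ) ≤ x ^ 3 := by positivity
          nlinarith
  refine (h z).trans ?_
  have e : ‖Ai 0‖ * Real.exp ((12 * K + |Real.log ‖Ai 0‖| + 1) * x ^ 3) =
      Real.exp (Real.log ‖Ai 0‖ + (12 * K + |Real.log ‖Ai 0‖| + 1) * x ^ 3) := by
    rw [Real.exp_add, Real.exp_log hA0]
  rw [e]
  apply Real.exp_le_exp.2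
  have hx3 : 1 ≤ x ^ 3 := one_le_pow₀ hx
  have h3 := neg_abs_le (Real.log ‖Ai 0‖)
  have h4 : |Real.log ‖Ai 0‖| ≤ |Real.log ‖Ai 0‖| * x ^ 3 :=
    le_mul_of_one_le_right (abs_nonneg _) hx3
  have h5 := mul_le_mul_of_nonneg_left h1 hK
  nlinarith

/-- real rooted polynomials -/
def RR (Q : ℂ[X]) : Prop := ∀ w, Q.IsRoot w → w.im = 0

theorem approx (hG : S_GROW) (a : ℝ) (ha : 0 < a) (hz : Ai (-(a : ℂ)) = 0) (N : ℕ) :
    ∃ Q : ℂ[X], RR Q ∧ ∀ w : ℂ, ‖w‖ ≤ N → ‖Q.eval w - Fa a w‖ ≤ 1 / (N + 1) := by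
  obtain ⟨C, hC, hgr⟩ := growth hG
  -- bound of `Fa a` on the disc
  obtain ⟨E, hE⟩ := (isCompact_closedBall (0 : ℂ) N).exists_bound_of_continuousOn
    ((Fa_diff a).continuous.continuousOn)
  have hE1 : ∀ w : ℂ, ‖w‖ ≤ N → ‖Fa a w‖ ≤ |E| + 1 := fun w hw =>
    (hE w (by rwa [mem_closedBall_zero_iff])).trans ((le_abs_self E).trans (by linarith))
  have hE0 : 0 < |E| + 1 := by positivity
  have hN0 : (0 : ℝ) ≤ N := N.cast_nonneg
  have hN1 : (0 : ℝ) < N + 1 := by linarith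
  -- the radius `x ^ 2`
  set B : ℝ := 16 * C * ((N : ℝ) + 1) ^ 2 * (4 * (|E| + 1) * (N + 1) + 1) with hB
  have hB0 : 0 < B := by positivity
  set x : ℝ := B + a + 2 * N + 2 with hx
  have hx1 : 1 ≤ x := by linarith
  have hx0 : 0 < x := by linarith
  have hxx : x ≤ x ^ 2 := by nlinarith
  obtain ⟨S, t, φ, hS, hF, hφ⟩ := Fa_fact a ha hz (x ^ 2) (C * x ^ 3) (by linarith) (by positivity)
    (hgr x hx1)
  have hNx : (N : ℝ) < x ^ 2 / 2 := by nlinarith
  -- the error of `φ`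
  have herr : ∀ w : ℂ, ‖w‖ ≤ N → ‖φ w - t * w‖ ≤ 1 / (4 * (|E| + 1) * (N + 1) + 1) := by
    intro w hw
    refine (hφ w (lt_of_le_of_lt hw hNx)).trans ?_
    have h1 : 16 * (C * x ^ 3) * (‖w‖ / x ^ 2) ^ 2 = 16 * C * ‖w‖ ^ 2 / x := by field_simp
    rw [h1, div_le_div_iff₀ hx0 (by positivity), one_mul]
    have h2 : ‖w‖ ^ 2 ≤ ((N : ℝ) + 1) ^ 2 := pow_le_pow_left₀ (norm_nonneg _) (by linarith) 2
    calc 16 * C * ‖w‖ ^ 2 * (4 * (|E| + 1) * (N + 1) + 1)
        ≤ 16 * C * ((N : ℝ) + 1) ^ 2 * (4 * (|E| + 1) * (N + 1) + 1) := by gcongr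
      _ = B := rfl
      _ ≤ x := by linarith
  -- the product
  set P : ℂ → ℂ := fun z => ∏ b ∈ S, (1 - z / b) with hP
  have hPc : Continuous P := by
    apply continuous_finsetProd
    intro b _
    exact continuous_const.sub (continuous_id.div_const b)
  obtain ⟨D, hD⟩ := (isCompact_closedBall (0 : ℂ) N).exists_bound_of_continuousOn hPc.continuousOn
  have hD1 : ∀ w : ℂ, ‖w‖ ≤ N → ‖P w‖ ≤ |D| + 1 := fun w hw =>
    (hD w (by rwa [mem_closedBall_zero_iff])).trans ((le_abs_self D).trans (by linarith))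
  have hD0 : 0 < |D| + 1 := by positivity
  obtain ⟨m, hm⟩ := exists_nat_gt (|t| * N + 1 +
    2 * (N + 1) * (|D| + 1) * (|t| * N) ^ 2 * Real.exp (|t| * N))
  have htN : 0 ≤ |t| * N := by positivity
  have hmt : |t| * N ≤ m := by
    have : 0 ≤ 2 * (N + 1) * (|D| + 1) * (|t| * N) ^ 2 * Real.exp (|t| * N) := by positivity
    linarith
  have hm0 : (0 : ℝ) < m := by
    have : 0 ≤ 2 * (N + 1) * (|D| + 1) * (|t| * N) ^ 2 * Real.exp (|t| * N) := by positivity
    linarith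
  have hm0' : 0 < m := by exact_mod_cast hm0
  have hmc : (m : ℂ) ≠ 0 := by exact_mod_cast hm0'.ne'
  refine ⟨(∏ b ∈ S, (1 - Polynomial.C (b⁻¹) * X)) * (1 + Polynomial.C ((t : ℂ) / m) * X) ^ m, ?_, ?_⟩
  · intro w hw
    rw [Polynomial.IsRoot.def, eval_mul, eval_pow, eval_prod] at hw
    rcases mul_eq_zero.1 hw with h | h
    · rw [Finset.prod_eq_zero_iff] at h
      obtain ⟨b, hb, hb1⟩ := h
      have hb0 := (hS b hb).1
      have h1 : w = b := by
        simp only [eval_sub, eval_one, eval_mul, eval_C, eval_X] at hb1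
        field_simp at hb1
        linear_combination -hb1
      rw [h1]; exact (hS b hb).2
    · have h1 := pow_eq_zero_iff hm0'.ne' |>.1 h
      simp only [eval_add, eval_one, eval_mul, eval_C, eval_X] at h1
      have e1 : ((t : ℂ) / m) = ((t / m : ℝ) : ℂ) := by push_cast; rfl
      rw [e1] at h1
      have h2 := congrArg Complex.im h1
      have h3 := congrArg Complex.re h1
      simp only [add_im, one_im, im_ofReal_mul, zero_im, zero_add] at h2
      simp only [add_re, one_re, re_ofReal_mul, zero_re] at h3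
      rcases mul_eq_zero.1 h2 with h4 | h4
      · rw [h4] at h3; norm_num at h3
      · exact h4
  · intro w hw
    have hwN : ‖w‖ ≤ N := hw
    have hev : (((∏ b ∈ S, (1 - Polynomial.C (b⁻¹) * X)) *
        (1 + Polynomial.C ((t : ℂ) / m) * X) ^ m : ℂ[X])).eval w =
        P w * (1 + (t * w) / m) ^ m := by
      rw [eval_mul, eval_pow, eval_prod]
      simp only [eval_sub, eval_one, eval_mul, eval_C, eval_X, eval_add, hP]
      congr 1
      · apply Finset.prod_congr rfl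
        intro b _
        rw [div_eq_mul_inv, mul_comm]
      · congr 1; ring
    have hwx : ‖w‖ < x ^ 2 := by nlinarith [sq_nonneg x]
    rw [hev, hF w hwx]
    have e2 : P w * (1 + (t * w) / m) ^ m - (∏ b ∈ S, (1 - w / b)) * cexp (φ w) =
        P w * ((1 + (t * w) / m) ^ m - cexp (t * w)) +
          (P w * cexp (φ w)) * (cexp (t * w - φ w) - 1) := by
      have : cexp (φ w) * cexp (t * w - φ w) = cexp (t * w) := by
        rw [← Complex.exp_add]; congr 1; ring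
      simp only [hP]
      linear_combination -((∏ b ∈ S, (1 - w / b))) * this
    rw [e2]
    have htw : ‖(t : ℂ) * w‖ ≤ |t| * N := by
      rw [norm_mul, Complex.norm_real, Real.norm_eq_abs]
      gcongr
    have h1 : ‖P w * ((1 + (t * w) / m) ^ m - cexp (t * w))‖ ≤ 1 / (2 * (N + 1)) := by
      rw [norm_mul]
      have h2 := exp_pow_bound ((t : ℂ) * w) m hm0' (htw.trans hmt)
      have h3 : ‖(t : ℂ) * w‖ ^ 2 / m * Real.exp ‖(t : ℂ) * w‖ ≤
          (|t| * N) ^ 2 / m * Real.exp (|t| * N) := by gcongr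
      calc ‖P w‖ * ‖(1 + (t * w) / m) ^ m - cexp (t * w)‖
          ≤ (|D| + 1) * ((|t| * N) ^ 2 / m * Real.exp (|t| * N)) := by
            apply mul_le_mul (hD1 w hwN) (h2.trans h3) (norm_nonneg _) hD0.le
        _ ≤ 1 / (2 * (N + 1)) := by
            rw [le_div_iff₀ (by positivity)]
            have e3 : (|D| + 1) * ((|t| * N) ^ 2 / m * Real.exp (|t| * N)) * (2 * (N + 1)) =
                (2 * (N + 1) * (|D| + 1) * (|t| * N) ^ 2 * Real.exp (|t| * N)) / m := by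
              field_simp
            rw [e3, div_le_one hm0]
            linarith
    have h4 : ‖(P w * cexp (φ w)) * (cexp (t * w - φ w) - 1)‖ ≤ 1 / (2 * (N + 1)) := by
      rw [norm_mul]
      have h5 : P w * cexp (φ w) = Fa a w := (hF w hwx).symm
      rw [h5]
      have h6 := herr w hwN
      have h7 : ‖(t : ℂ) * w - φ w‖ ≤ 1 / (4 * (|E| + 1) * (N + 1) + 1) := by
        rw [norm_sub_rev]; exact h6
      have h8 : ‖(t : ℂ) * w - φ w‖ ≤ 1 := h7.trans (by
        rw [div_le_one (by positivity)]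
        have : 0 ≤ 4 * (|E| + 1) * ((N : ℝ) + 1) := by positivity
        linarith)
      have h9 := Complex.norm_exp_sub_one_le h8
      calc ‖Fa a w‖ * ‖cexp (t * w - φ w) - 1‖
          ≤ (|E| + 1) * (2 * (1 / (4 * (|E| + 1) * (N + 1) + 1))) := by
            apply mul_le_mul (hE1 w hwN) (h9.trans (by linarith)) (norm_nonneg _) hE0.le
        _ ≤ 1 / (2 * (N + 1)) := by
            rw [mul_one_div, mul_div_assoc', div_le_div_iff₀ (by positivity) (by positivity)]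
            nlinarith
    calc _ ≤ ‖P w * ((1 + (t * w) / m) ^ m - cexp (t * w))‖ +
          ‖(P w * cexp (φ w)) * (cexp (t * w - φ w) - 1)‖ := norm_add_le _ _
      _ ≤ 1 / (2 * (N + 1)) + 1 / (2 * (N + 1)) := add_le_add h1 h4
      _ = 1 / (N + 1) := by field_simp; ring

/-- `Fa a` is a locally uniform limit of real rooted polynomials. -/
theorem limit_hyp (hG : S_GROW) (a : ℝ) (ha : 0 < a) (hz : Ai (-(a : ℂ)) = 0) :
    ∃ Q : ℕ → ℂ[X], (∀ N w, (Q N).IsRoot w → w.im = 0) ∧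
      TendstoLocallyUniformly (fun (N : ℕ) (w : ℂ) => (Q N).eval w) (Fa a) atTop := by
  choose Q hQ1 hQ2 using approx hG a ha hz
  refine ⟨Q, hQ1, ?_⟩
  rw [tendstoLocallyUniformly_iff_forall_isCompact]
  intro K hK
  obtain ⟨R, hR⟩ := hK.isBounded.exists_norm_le
  rw [Metric.tendstoUniformlyOn_iff]
  intro ε hε
  obtain ⟨n1, hn1⟩ := exists_nat_gt R
  obtain ⟨n2, hn2⟩ := exists_nat_one_div_lt hε
  filter_upwards [eventually_ge_atTop (max n1 n2)] with n hn w hw
  have h1 : ‖w‖ ≤ n := (hR w hw).trans (hn1.le.trans (by exact_mod_cast (le_max_left _ _).trans hn))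
  rw [dist_comm, dist_eq_norm]
  refine lt_of_le_of_lt (hQ2 n w h1) (lt_of_le_of_lt ?_ hn2)
  have h2 : (n2 : ℝ) ≤ n := by exact_mod_cast (le_max_right _ _).trans hn
  gcongr

end Pool.Agent.V7H51.CH
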